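import Pool.Agent.Results.MP_1906c1_mp.ScaleAtEdge
import Pool.Agent.W788.BK.FinG
import Pool.Agent.W193.BK.ES
import Pool.Agent.W240.BK.Var
import Pool.Agent.W540.BK.Fac
import Pool.Agent.W240.BK.Fluct
import Pool.Agent.W340.BK.Conc
import Pool.Agent.W918.BK.Osc
import Pool.Agent.W240.BK.Two
import Pool.Agent.W465.BK.QB
import Pool.Agent.W475.BK.Low
import Pool.Agent.W975.BK.Sup
import Pool.Agent.W790.BK.ADM
import Pool.Agent.W475.BK.Inv
import Pool.Agent.W351.BK.Mb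
import Pool.Agent.W363.BK.Site
import Pool.Agent.W261.BK.Third

/-!
# Gaussian disorder, dimension at least three: spectral measures are flat beyond the kinetic scale

`H_σ = Δ + σ ξ` on `ℤ^d`, `d ≥ 3`, `(Δψ)(x) = ∑_{|y-x|=1} ψ(y)`, iid standard Gaussian `ξ`.
There are `σ₀ > 0` and `K`, depending only on `d`, such that for `0 < σ ≤ σ₀`, with probability at
least `1 - exp(-σ^{-1/100})`,
* every spectral measure `m` of a vector `g` supported in the box of radius `exp(σ^{-1/100})`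
  satisfies `m [E - s, E + s] ≤ K log(1/σ) s ‖g‖₁²` at all energies `E` and for all `s ≥ σ^{17/8}`;
* every `ℓ²`-eigenfunction `u`, at whatever energy, satisfies
  `|u(x)|² ≤ K log(1/σ) σ^{17/8} ‖u‖²` at all sites of that box.
The natural kinetic scale is `σ²`; the scale `σ^{17/8}` is much smaller.
-/

set_option autoImplicit false

open scoped BigOperators ENNReal
open MeasureTheory ProbabilityTheory

namespace Pool.Agent.Results.MP_1906c1_mp.BeyondKineticScale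

open Pool.Agent.Results.MP_1906c1_mp.ScaleAtEdge

/-- **Theorem.** -/
theorem result (d : ℕ) (hd : 3 ≤ d) :
    ∃ sig0 K : ℝ, 0 < sig0 ∧ 0 < K ∧ ∀ σ : ℝ, 0 < σ → σ ≤ sig0 →
      ∃ G : Set ((Fin d → ℤ) → ℝ), MeasurableSet G ∧
        1 - Real.exp (-σ ^ (-(1 / 100) : ℝ)) ≤
          (Measure.infinitePi fun _ : Fin d → ℤ => gaussianReal 0 1).real G ∧
        ∀ ξ ∈ G,
          (∀ (g : (Fin d → ℤ) → ℂ) (B : Finset (Fin d → ℤ)),
            (∀ a ∈ B, ‖a‖ ≤ Real.exp (σ ^ (-(1 / 100) : ℝ))) → (∀ a, a ∉ B → g a = 0) →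
            ∀ m : Measure ℝ, IsSpectralMeasure (H σ ξ) g m →
            ∀ E s : ℝ, σ ^ (17 / 8 : ℝ) ≤ s →
            m.real (Set.Icc (E - s) (E + s)) ≤
              K * Real.log (1 / σ) * s * (∑ a ∈ B, ‖g a‖) ^ 2) ∧
          (∀ (E : ℝ) (u : (Fin d → ℤ) → ℂ), SqSummable u →
            (∀ x, H σ ξ u x = (E : ℂ) * u x) →
            ∀ a : Fin d → ℤ, ‖a‖ ≤ Real.exp (σ ^ (-(1 / 100) : ℝ)) →
            ‖u a‖ ^ 2 ≤ K * Real.log (1 / σ) * σ ^ (17 / 8 : ℝ) * ∑' x, ‖u x‖ ^ 2) := by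
  obtain ⟨sig0, K, hsig0, hK, h⟩ := Pool.Agent.W788.BK.finG
    (Pool.Agent.W261.BK.third Pool.Agent.W540.BK.fac)
    (Pool.Agent.W240.BK.fluct (Pool.Agent.W240.BK.var Pool.Agent.W193.BK.ES.es))
    Pool.Agent.W475.BK.inv Pool.Agent.W351.BK.mb
    (Pool.Agent.W340.BK.Conc.conc Pool.Agent.W193.BK.ES.es)
    Pool.Agent.W975.BK.sup Pool.Agent.W363.BK.site
    (Pool.Agent.W465.BK.qb (Pool.Agent.W240.BK.two Pool.Agent.W918.BK.Osc.osc))
    Pool.Agent.W475.BK.low Pool.Agent.W790.BK.ADM.adm d hd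
  refine ⟨sig0, K, hsig0, hK, ?_⟩
  intro σ hσ hσ1
  obtain ⟨G, hG, hP, hb⟩ := h σ hσ hσ1
  refine ⟨G, hG, hP, fun ξ hξ => ⟨?_, ?_⟩⟩
  · intro g B hB hgB m hm E s hs
    refine (hb ξ hξ).1 g B hB hgB m hm.1 ?_ E s hs
    intro z hz
    obtain ⟨u, hu, heq, hint⟩ := hm.2 z hz
    exact ⟨u, hu, heq, hint⟩
  · intro E u hu heq a ha
    exact (hb ξ hξ).2 E u hu heq a ha

end Pool.Agent.Results.MP_1906c1_mp.BeyondKineticScale
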