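import Pool.Agent.W122.GS.Top

/-!
# Extended states at the band edge for slowly decaying Gaussian disorder, and sharpness

For `d ≥ 5` the operator `Δ + a x * ξ x + W x` with independent standard Gaussian `ξ x`, weights
`a x ≤ κ / √(log (e + |x|))` with `κ` small and a suitable deterministic correction
`|W x| ≤ C (a x)²` has a bounded solution at the band edge `2d` which is close to one; it is
bounded above by `2d`, has no eigenvalue at or above `2d`, and eigenfunctions near the edge are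
spread out. For weights `K / √(log (e + |x|))` with `K` large no such correction keeps the operator
below `2d`, even outside a finite set.
-/

set_option autoImplicit false

namespace Pool.Agent.Results.MP_1906c1_mp.DecayingGaussianEdge

open MeasureTheory ProbabilityTheory Pool.Agent.W122.DS Pool.Agent.W122.GS

theorem result (d : ℕ) (hd : 5 ≤ d) :
    (∀ δ : ℝ, 0 < δ →
      ∃ κ₀ C : ℝ, 0 < κ₀ ∧ 0 < C ∧ C * κ₀ ≤ 1 / 10 ∧ ∀ κ : ℝ, 0 < κ → κ ≤ κ₀ →
      ∀ a : Lat d → ℝ, (∀ x, 0 ≤ a x) →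
      (∀ x, a x ≤ κ / √(Real.log (Real.exp 1 + √(nsq x)))) →
      ∀ (Ω : Type) [MeasurableSpace Ω] (P : Measure Ω) [IsProbabilityMeasure P]
        (ξ : Lat d → Ω → ℝ), (∀ x, Measurable (ξ x)) → iIndepFun ξ P →
        (∀ x, P.map (ξ x) = gaussianReal 0 1) →
        ∃ W : Lat d → ℝ, (∀ x, |W x| ≤ C * a x ^ 2) ∧
          ∃ E : Set Ω, MeasurableSet E ∧ 1 - δ ≤ P.real E ∧ ∀ ω ∈ E,
            (∃ ψ : Lat d → ℝ, (∀ x, |ψ x - 1| ≤ C * κ) ∧
              ∀ x, adj ψ x + (a x * ξ x ω + W x) * ψ x = 2 * d * ψ x) ∧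
            TopProps d C (fun x => a x * ξ x ω + W x)) ∧
    (∃ K₀ : ℝ, 0 < K₀ ∧ ∀ (K C : ℝ), K₀ ≤ K →
      ∀ (W : Lat d → ℝ), (∀ x, |W x| ≤ C * (K / √(Real.log (Real.exp 1 + √(nsq x)))) ^ 2) →
      ∀ (Ω : Type) [MeasurableSpace Ω] (P : Measure Ω) [IsProbabilityMeasure P]
        (ξ : Lat d → Ω → ℝ), (∀ x, Measurable (ξ x)) → iIndepFun ξ P →
        (∀ x, P.map (ξ x) = gaussianReal 0 1) →
        ∀ᵐ ω ∂P, AboveFar d
          (fun x => K / √(Real.log (Real.exp 1 + √(nsq x))) * ξ x ω + W x)) :=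
  ⟨fun δ hδ => topG d hd δ hδ, topNegG d (by omega)⟩

end Pool.Agent.Results.MP_1906c1_mp.DecayingGaussianEdge
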