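import Pool.Agent.W792.GK.All
import Pool.Agent.W792.GK.Lap

/-!
Gaussian Anderson models `Δ + B + σ ξ` on `ℓ²(ℤ^d)`, `B` a generic lattice symmetric translation
invariant operator of small norm: almost surely there are no eigenvalues, at every disorder strength.
-/

namespace Pool.Agent.Results.MP_1906c1_mp.GenericKineticEnergy

open MeasureTheory ProbabilityTheory

noncomputable section

/-- The real continuous function `B` on the torus `(ℝ/ℤ)^d` is lattice symmetric: invariant under
permutations of the coordinates and under the change of sign of each coordinate. -/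
def LatticeSymmetric {d : ℕ} (B : C(UnitAddTorus (Fin d), ℝ)) : Prop :=
  (∀ (σ : Equiv.Perm (Fin d)) (k : UnitAddTorus (Fin d)), B (fun i => k (σ i)) = B k) ∧
  ∀ (i : Fin d) (k : UnitAddTorus (Fin d)), B (Function.update k i (-(k i))) = B k

/-- The hopping amplitudes (Fourier coefficients) of the symbol `B`. -/
def hopping {d : ℕ} (B : C(UnitAddTorus (Fin d), ℝ)) (x : Fin d → ℤ) : ℂ :=
  UnitAddTorus.mFourierCoeff (fun k => (B k : ℂ)) x

/-- `(Δ + B + V) u (x)`, where `Δ u (x) = ∑_{|y-x|=1} u(y)`, `B` acts by convolution with its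
hopping amplitudes and `V` is a potential. -/
def H {d : ℕ} (B : C(UnitAddTorus (Fin d), ℝ)) (V : (Fin d → ℤ) → ℝ) (u : (Fin d → ℤ) → ℂ)
    (x : Fin d → ℤ) : ℂ :=
  (∑ i : Fin d, (u (x + Pi.single i 1) + u (x - Pi.single i 1)))
    + (∑' y, hopping B (x - y) * u y) + (V x : ℂ) * u x

/-- The operator `Δ + B + V` has no eigenvalue: its spectrum is purely continuous. -/
def NoEigenvalue {d : ℕ} (B : C(UnitAddTorus (Fin d), ℝ)) (V : (Fin d → ℤ) → ℝ) : Prop :=
  ∀ (E : ℝ) (u : (Fin d → ℤ) → ℂ), Summable (fun x => ‖u x‖ ^ 2) →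
    (∀ x, H B V u x = (E : ℂ) * u x) → u = 0

theorem hop_neg {d : ℕ} (K : C(UnitAddTorus (Fin d), ℝ)) (x : Fin d → ℤ) :
    W792.GK.hop (-K) x = -W792.GK.hop K x := by
  have h := W792.GKLap.hop_add K (-K) x
  have h0 : W792.GK.hop (0 : C(UnitAddTorus (Fin d), ℝ)) x = 0 := by
    have := W792.GKLap.hop_add (0 : C(UnitAddTorus (Fin d), ℝ)) 0 x
    rw [add_zero] at this
    simpa using this
  rw [add_neg_cancel, h0] at h
  exact (neg_eq_of_add_eq_zero_right h.symm).symm

theorem noEig_of {d : ℕ} {B : C(UnitAddTorus (Fin d), ℝ)} {V : (Fin d → ℤ) → ℝ}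
    (h : W792.GK.NoEig (B - W792.GKLap.lapSym d) V) : NoEigenvalue B V := by
  intro E u hu he
  refine h (E - 2 * d) u hu fun x => ?_
  have h1 : ∑' y, W792.GK.hop (B - W792.GKLap.lapSym d) (x - y) * u y =
      (∑' y, hopping B (x - y) * u y) - W792.GKLap.negLap u x := by
    rw [← W792.GKLap.lap_conv]
    show _ = (∑' y, W792.GK.hop B (x - y) * u y) - _
    rw [← Summable.tsum_sub (W792.GKLap.hop_summable B u hu x)
      (W792.GKLap.hop_summable (W792.GKLap.lapSym d) u hu x)]
    refine tsum_congr fun y => ?_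
    rw [sub_eq_add_neg, W792.GKLap.hop_add, hop_neg]
    ring
  have h2 : W792.GKLap.negLap u x = 2 * d * u x -
      ∑ i : Fin d, (u (x + Pi.single i 1) + u (x - Pi.single i 1)) := by
    unfold W792.GKLap.negLap
    rw [eq_sub_iff_add_eq, ← Finset.sum_add_distrib]
    have : ∀ i : Fin d, (2 * u x - u (x + Pi.single i 1) - u (x - Pi.single i 1)
        + (u (x + Pi.single i 1) + u (x - Pi.single i 1))) = 2 * u x := fun i => by ring
    simp_rw [this]
    rw [Finset.sum_const, Finset.card_univ, Fintype.card_fin, nsmul_eq_mul]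
    ring
  have h3 := he x
  unfold H at h3
  rw [h1, h2]
  push_cast
  linear_combination h3

/-- The shift by the symbol of the Laplacian, as a homeomorphism. -/
def shiftH (d : ℕ) : W792.GK.SymSp d ≃ₜ W792.GK.SymSp d where
  toFun B := ⟨B.1 - W792.GKLap.lapSym d, by
    refine ⟨fun σ k => ?_, fun i k => ?_⟩
    · rw [ContinuousMap.sub_apply, ContinuousMap.sub_apply, (W792.GKLap.lap_isSym d).1, B.2.1]
    · rw [ContinuousMap.sub_apply, ContinuousMap.sub_apply, (W792.GKLap.lap_isSym d).2, B.2.2]⟩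
  invFun B := ⟨B.1 + W792.GKLap.lapSym d, by
    refine ⟨fun σ k => ?_, fun i k => ?_⟩
    · rw [ContinuousMap.add_apply, ContinuousMap.add_apply, (W792.GKLap.lap_isSym d).1, B.2.1]
    · rw [ContinuousMap.add_apply, ContinuousMap.add_apply, (W792.GKLap.lap_isSym d).2, B.2.2]⟩
  left_inv B := Subtype.ext (by simp)
  right_inv B := Subtype.ext (by simp)
  continuous_toFun := by
    refine Continuous.subtype_mk ?_ _
    exact continuous_subtype_val.sub continuous_const
  continuous_invFun := by
    refine Continuous.subtype_mk ?_ _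
    exact continuous_subtype_val.add continuous_const

theorem scale {d : ℕ} (B : C(UnitAddTorus (Fin d), ℝ))
    (h : ∀ (ν : Measure ℝ) [IsProbabilityMeasure ν],
      ∀ᵐ v ∂(Measure.infinitePi fun _ : Fin d → ℤ => ν),
        W792.GK.NoEig (B - W792.GKLap.lapSym d) v) (σ : ℝ) :
    ∀ᵐ ξ ∂(Measure.infinitePi fun _ : Fin d → ℤ => gaussianReal 0 1),
      NoEigenvalue B (fun x => σ * ξ x) := by
  have hm : Measurable fun t : ℝ => σ * t := measurable_const_mul σ
  have : IsProbabilityMeasure ((gaussianReal 0 1).map fun t : ℝ => σ * t) :=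
    Measure.isProbabilityMeasure_map hm.aemeasurable
  have h1 := h ((gaussianReal 0 1).map fun t : ℝ => σ * t)
  have h2 : (Measure.infinitePi fun _ : Fin d → ℤ => (gaussianReal 0 1).map fun t : ℝ => σ * t) =
      (Measure.infinitePi fun _ : Fin d → ℤ => gaussianReal 0 1).map (fun ω x => σ * ω x) :=
    (Measure.infinitePi_map_pi (μ := fun _ : Fin d → ℤ => gaussianReal 0 1)
      (f := fun _ => fun t : ℝ => σ * t) (fun _ => hm)).symm
  rw [h2] at h1
  have h3 : Measurable fun (ω : (Fin d → ℤ) → ℝ) (x : Fin d → ℤ) => σ * ω x :=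
    measurable_pi_lambda _ fun x => hm.comp (measurable_pi_apply x)
  have h4 := ae_of_ae_map h3.aemeasurable h1
  filter_upwards [h4] with ω hω
  exact noEig_of hω

/-- For all `B` in a residual set of lattice symmetric translation invariant operators, in
particular for some `B` of arbitrarily small norm, and for every real `σ`, the operator
`Δ + B + σ ξ`, `ξ` i.i.d. standard Gaussian, almost surely has no eigenvalue. -/
theorem result (d : ℕ) (hd : 0 < d) :
    (∀ᶠ B : {B : C(UnitAddTorus (Fin d), ℝ) // LatticeSymmetric B} in residual _, ∀ σ : ℝ,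
      ∀ᵐ ξ ∂(Measure.infinitePi fun _ : Fin d → ℤ => gaussianReal 0 1),
        NoEigenvalue B.1 (fun x => σ * ξ x)) ∧
    ∀ ε : ℝ, 0 < ε → ∃ B : C(UnitAddTorus (Fin d), ℝ), LatticeSymmetric B ∧ ‖B‖ < ε ∧ ∀ σ : ℝ,
      ∀ᵐ ξ ∂(Measure.infinitePi fun _ : Fin d → ℤ => gaussianReal 0 1),
        NoEigenvalue B (fun x => σ * ξ x) := by
  obtain ⟨h1, h2⟩ := W792.GK.final d hd
  constructor
  · have h3 : ∀ᶠ B : W792.GK.SymSp d in residual (W792.GK.SymSp d),
        ∀ (ν : Measure ℝ) [IsProbabilityMeasure ν],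
          ∀ᵐ v ∂(Measure.infinitePi fun _ : Fin d → ℤ => ν),
            W792.GK.NoEig ((shiftH d) B).1 v := by
      have h4 := (shiftH d).residual_map_eq
      rw [← h4] at h1
      exact h1
    filter_upwards [h3] with B hB σ
    exact scale B.1 hB σ
  · intro ε hε
    obtain ⟨K, hK1, hK2, hK3⟩ := h2 (-W792.GKLap.lapSym d) ε
      ⟨fun σ k => by
        rw [ContinuousMap.neg_apply, ContinuousMap.neg_apply, (W792.GKLap.lap_isSym d).1],
       fun i k => by
        rw [ContinuousMap.neg_apply, ContinuousMap.neg_apply, (W792.GKLap.lap_isSym d).2]⟩ hε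
    refine ⟨K + W792.GKLap.lapSym d, ⟨fun σ k => ?_, fun i k => ?_⟩, ?_, fun σ => ?_⟩
    · rw [ContinuousMap.add_apply, ContinuousMap.add_apply, (W792.GKLap.lap_isSym d).1, hK1.1]
    · rw [ContinuousMap.add_apply, ContinuousMap.add_apply, (W792.GKLap.lap_isSym d).2, hK1.2]
    · rw [sub_neg_eq_add] at hK2
      exact hK2
    · refine scale _ (fun ν _ => ?_) σ
      rw [add_sub_cancel_right]
      exact hK3 ν

end

end Pool.Agent.Results.MP_1906c1_mp.GenericKineticEnergy
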