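import Pool.Agent.Results.MP_1906c1_mp.ScaleAtEdge
import Pool.Agent.W788.MFP.Fin

/-!
# Weak disorder in dimension at least three: every eigenfunction is spread out on the scale of the
mean free path

`H_σ = Δ + σ ξ` on `ℤ^d`, `d ≥ 3`, `(Δψ)(x) = ∑_{|y-x|=1} ψ(y)`, iid standard Gaussian `ξ`.
For `0 < σ ≤ 1/2` and `ρ ≥ 1/σ`, with probability at least `1 - 1/ρ`, every `ℓ²`-eigenfunction `u`,
at whatever energy `E`, satisfies at all sites of the box of radius `ρ`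
* `|u(x)|² ≤ K σ² log²(1/σ) log ρ ‖u‖²`;
* the mass of `u` in the ball of radius `R` about the site is at most
  `(K/θ) (R σ² log(1/σ) log ρ)^{1/2} ‖u‖²`, if `E` has distance at least `θ` from the critical
  values `2d - 4j`, `0 ≤ j ≤ d`, of the symbol of `Δ`.
-/

set_option autoImplicit false

open scoped BigOperators ENNReal
open MeasureTheory ProbabilityTheory

namespace Pool.Agent.Results.MP_1906c1_mp.MeanFreePath

open Pool.Agent.Results.MP_1906c1_mp.ScaleAtEdge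

/-- **Theorem.** -/
theorem result (d : ℕ) (hd : 3 ≤ d) : ∃ K : ℝ, 0 < K ∧ ∀ σ ρ : ℝ, 0 < σ → σ ≤ 1 / 2 → 1 / σ ≤ ρ →
    ∃ G : Set ((Fin d → ℤ) → ℝ), MeasurableSet G ∧
      1 - 1 / ρ ≤ (Measure.infinitePi fun _ : Fin d → ℤ => gaussianReal 0 1).real G ∧
      ∀ ξ ∈ G, ∀ (E : ℝ) (u : (Fin d → ℤ) → ℂ), SqSummable u →
        (∀ x, H σ ξ u x = (E : ℂ) * u x) → ∀ a : Fin d → ℤ, ‖a‖ ≤ ρ →
        ‖u a‖ ^ 2 ≤ K * (σ ^ 2 * Real.log (1 / σ) ^ 2 * Real.log ρ) * ∑' x, ‖u x‖ ^ 2 ∧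
        ∀ θ R : ℝ, 0 < θ → θ ≤ 1 → (∀ j : ℕ, j ≤ d → θ ≤ |E - (2 * d - 4 * j)|) → 1 ≤ R →
          ∀ A : Finset (Fin d → ℤ), (∀ x ∈ A, ‖x - a‖ ≤ R) → ∑ x ∈ A, ‖u x‖ ^ 2 ≤
            K / θ * Real.sqrt (R * (σ ^ 2 * Real.log (1 / σ) * Real.log ρ)) *
              ∑' x, ‖u x‖ ^ 2 := by
  have hd3 : (3 : ℝ) ≤ d := by exact_mod_cast hd
  obtain ⟨A0, hA0⟩ : ∃ A0 : ℝ, A0 = Pool.Agent.W788.MFP.Fin.AA d := ⟨_, rfl⟩
  obtain ⟨c, hc⟩ : ∃ c : ℝ, c = 2 + 8 * Pool.Agent.W788.MFP.Dos.C3 := ⟨_, rfl⟩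
  have hA : 5000 ≤ A0 := by
    rw [hA0]
    exact Pool.Agent.W788.MFP.Fin.AA_ge d hd
  have hc2 : 2 ≤ c := by
    rw [hc]
    unfold Pool.Agent.W788.MFP.Dos.C3
    norm_num
  obtain ⟨K, hK⟩ : ∃ K : ℝ, K = 28 * (d : ℝ) ^ 2 * (d + 1) * A0 + 8 * A0 * c := ⟨_, rfl⟩
  have hKd : 28 * (d : ℝ) ^ 2 * (d + 1) * A0 ≤ K := by
    rw [hK]
    have : 0 ≤ 8 * A0 * c := by positivity
    linarith
  have hKc : 8 * A0 * c ≤ K := by
    rw [hK]
    have : 0 ≤ 28 * (d : ℝ) ^ 2 * (d + 1) * A0 := by positivity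
    linarith
  have hK0 : 0 < K := by
    have : 0 < 8 * A0 * c := by positivity
    linarith
  refine ⟨K, hK0, ?_⟩
  intro σ ρ hσ hσ1 hρ
  obtain ⟨l, hl⟩ : ∃ l, l = Real.log (1 / σ) := ⟨_, rfl⟩
  obtain ⟨Λ, hΛ⟩ : ∃ Λ, Λ = Real.log ρ := ⟨_, rfl⟩
  have hσ2 : 2 ≤ 1 / σ := by
    rw [le_div_iff₀ hσ]
    linarith
  have hl2 : 1 / 2 ≤ l := by
    rw [hl]
    have h1 := Real.log_le_log (by norm_num) hσ2
    have h2 := Real.log_two_gt_d9
    linarith
  have hlΛ : l ≤ Λ := by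
    rw [hl, hΛ]
    exact Real.log_le_log (by positivity) hρ
  have hΛ2 : 1 / 2 ≤ Λ := by linarith
  rw [← hl, ← hΛ]
  obtain ⟨δ, hδ⟩ : ∃ δ, δ = A0 * (σ ^ 2 * l * Λ) := ⟨_, rfl⟩
  have hδ0 : 0 < δ := by
    rw [hδ]
    positivity
  rcases le_or_gt δ (1 / 2) with hδ1 | hδ1
  · obtain ⟨G, hG, hP, hb⟩ := Pool.Agent.W788.MFP.Fin.main hd σ ρ δ hσ hσ1 hρ (by
      rw [hδ, hA0, hl, hΛ]) hδ1
    refine ⟨G, hG, hP, ?_⟩
    intro ξ hξ E u hu heq a ha
    have hS : 0 ≤ ∑' x, ‖u x‖ ^ 2 := tsum_nonneg fun x => by positivity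
    obtain ⟨b1, b2⟩ := hb ξ hξ E u hu heq a ha
    rw [← hc, ← hl] at b1
    constructor
    · refine b1.trans ?_
      apply mul_le_mul_of_nonneg_right _ hS
      have e1 : 4 * δ * (c * (2 * l)) = 8 * A0 * c * (σ ^ 2 * l ^ 2 * Λ) := by
        rw [hδ]
        ring
      rw [e1]
      apply mul_le_mul_of_nonneg_right hKc
      positivity
    · intro θ R hθ hθ1 hcrit hR A hA'
      refine (b2 θ R hθ hθ1 hcrit hR A hA').trans ?_
      apply mul_le_mul_of_nonneg_right _ hS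
      have e1 : R * δ = A0 * (R * (σ ^ 2 * l * Λ)) := by
        rw [hδ]
        ring
      have e2 : Real.sqrt A0 ≤ A0 := by
        rw [Real.sqrt_le_left (by linarith)]
        nlinarith
      rw [e1, Real.sqrt_mul (by linarith)]
      calc 28 * (d : ℝ) ^ 2 * (d + 1) / θ * (Real.sqrt A0 * Real.sqrt (R * (σ ^ 2 * l * Λ))) ≤
          28 * (d : ℝ) ^ 2 * (d + 1) / θ * (A0 * Real.sqrt (R * (σ ^ 2 * l * Λ))) := by
            gcongr
        _ = 28 * (d : ℝ) ^ 2 * (d + 1) * A0 / θ * Real.sqrt (R * (σ ^ 2 * l * Λ)) := by ring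
        _ ≤ _ := by
            gcongr
  · refine ⟨Set.univ, MeasurableSet.univ, ?_, ?_⟩
    · rw [probReal_univ]
      have : 0 < 1 / ρ := by
        have : 0 < ρ := by linarith
        positivity
      linarith
    · intro ξ _ E u hu heq a ha
      have hS : 0 ≤ ∑' x, ‖u x‖ ^ 2 := tsum_nonneg fun x => by positivity
      constructor
      · have h1 : ‖u a‖ ^ 2 ≤ ∑' x, ‖u x‖ ^ 2 :=
          hu.le_tsum a fun x _ => by positivity
        refine h1.trans ?_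
        apply le_mul_of_one_le_left hS
        have e1 : 8 * A0 * c * (σ ^ 2 * l ^ 2 * Λ) = 8 * c * l * δ := by
          rw [hδ]
          ring
        have e2 : 8 * A0 * c * (σ ^ 2 * l ^ 2 * Λ) ≤ K * (σ ^ 2 * l ^ 2 * Λ) :=
          mul_le_mul_of_nonneg_right hKc (by positivity)
        have e3 : 8 * 2 * (1 / 2) * (1 / 2) ≤ 8 * c * l * δ := by
          gcongr
        linarith
      · intro θ R hθ hθ1 hcrit hR A hA'
        have h1 : ∑ x ∈ A, ‖u x‖ ^ 2 ≤ ∑' x, ‖u x‖ ^ 2 :=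
          hu.sum_le_tsum A fun x _ => by positivity
        refine h1.trans ?_
        apply le_mul_of_one_le_left hS
        have e2 : 1 / (2 * A0) ≤ Real.sqrt (R * (σ ^ 2 * l * Λ)) := by
          apply Real.le_sqrt_of_sq_le
          have e3 : δ / A0 = σ ^ 2 * l * Λ := by
            rw [hδ]
            field_simp
          rw [← e3]
          have e4 : (1 / (2 * A0)) ^ 2 ≤ (1 / 2) / A0 := by
            rw [div_pow, div_div, div_le_div_iff₀ (by positivity) (by positivity)]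
            nlinarith
          have e5 : (1 / 2) / A0 ≤ δ / A0 := by gcongr
          have e6 : 1 * (δ / A0) ≤ R * (δ / A0) := by gcongr
          linarith
        have e7 : 1 ≤ K / θ * (1 / (2 * A0)) := by
          rw [div_mul_div_comm, mul_one, le_div_iff₀ (by positivity), one_mul]
          have e8 : θ * (2 * A0) ≤ 1 * (2 * A0) := by gcongr
          have e9 : 28 * (3 : ℝ) ^ 2 * (3 + 1) * A0 ≤ 28 * (d : ℝ) ^ 2 * (d + 1) * A0 := by
            gcongr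
          linarith
        refine e7.trans ?_
        gcongr

end Pool.Agent.Results.MP_1906c1_mp.MeanFreePath
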