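import Pool.Agent.Results.MP_1906c1_mp.ScaleAtEdge
import Pool.Agent.W788.Fin3

/-!
# Gaussian disorder in dimension three: a sharp window around the effective band edge

`H_σ = Δ + σ ξ` on `ℤ³`, `(Δψ)(x) = ∑_{|y-x|=1} ψ(y)`, iid standard Gaussian `ξ`, weak coupling.
There is an effective band edge `Es = Es(σ)` such that for all `κ` with
`K (σ² log (1/σ))² ≤ κ ≤ 1`
* at the energies `|E| ≥ Es + κ` there is exponential localization;
* with probability at least `1 - exp(-k √κ / σ²)` every `ℓ²`-eigenfunction `u` with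
  `|E| ≥ Es - κ'`, `κ ≤ κ' ≤ 1`, satisfies `|u(x)|² ≤ K κ'^{3/2} ‖u‖²` at all sites `x` of the box of
  radius `exp(k √κ / σ²)`;
* on tori of side `L ≤ k / (σ² log (1/σ))` the top eigenvector is flat up to the factor `1 + η`, its
  eigenvalue is within `K / L²` of `Es`, and the eigenvalues, counted from the top one, agree with
  those of `Δ` up to the factor `(1+η)²`, with probability at least `1 - exp(-k / (L σ²))`.
-/

set_option autoImplicit false

open scoped BigOperators ENNReal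
open MeasureTheory ProbabilityTheory

namespace Pool.Agent.Results.MP_1906c1_mp.ThreeDimEdge

open Pool.Agent.Results.MP_1906c1_mp.ScaleAtEdge

/-- **Theorem.** -/
theorem result (η : ℝ) (hη : 0 < η) (hη' : η ≤ 1) :
    ∃ k K : ℝ, 0 < k ∧ 0 < K ∧ ∀ σ : ℝ, 0 < σ → σ ≤ k → ∃ Es : ℝ, |Es - 6| ≤ 1 ∧
      -- (1) on `ℤ³`: `ℓ²`-eigenfunctions near and above the edge are spread out
      (∀ κ : ℝ, K * (σ ^ 2 * Real.log (1 / σ)) ^ 2 ≤ κ → κ ≤ 1 →
        ∃ G : Set ((Fin 3 → ℤ) → ℝ), MeasurableSet G ∧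
          1 - Real.exp (-(k * Real.sqrt κ / σ ^ 2)) ≤
            (Measure.infinitePi fun _ : Fin 3 → ℤ => gaussianReal 0 1).real G ∧
          ∀ ξ ∈ G, ∀ κ' : ℝ, κ ≤ κ' → κ' ≤ 1 → ∀ E : ℝ, Es - κ' ≤ |E| →
            SpreadOut σ ξ E (K * κ' ^ ((3 : ℝ) / 2)) (Real.exp (k * Real.sqrt κ / σ ^ 2))) ∧
      -- (2) on tori of side up to `k / (σ² log (1/σ))`
      (∀ (L : ℕ) [NeZero L], (L : ℝ) * (σ ^ 2 * Real.log (1 / σ)) ≤ k →
        ∃ G : Set (T 3 L → ℝ), MeasurableSet G ∧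
          1 - Real.exp (-(k / (L * σ ^ 2))) ≤
            (Measure.pi fun _ : T 3 L => gaussianReal 0 1).real G ∧
          ∀ ξ ∈ G,
            (∃ (Et : ℝ) (ψ : T 3 L → ℝ), |Et - Es| ≤ K / (L : ℝ) ^ 2 ∧
              (∀ x, 1 ≤ ψ x ∧ ψ x ≤ 1 + η) ∧ (∀ x, HT σ ξ ψ x = Et * ψ x) ∧
              LikeFree ((1 + η) ^ 2) Et σ ξ) ∧
            ∀ κ : ℝ, 1 / (L : ℝ) ^ 2 ≤ κ → ∀ E : ℝ, Es - κ ≤ E →
              SpreadOutT σ ξ E (K * κ ^ ((3 : ℝ) / 2))) ∧
      -- (3) exponential localization for `|E| ≥ Es + κ`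
      ∀ κ : ℝ, K * (σ ^ 2 * Real.log (1 / σ)) ^ 2 ≤ κ → κ ≤ 1 →
        ∀ᵐ ξ ∂(Measure.infinitePi fun _ : Fin 3 → ℤ => gaussianReal 0 1),
          Localized (H σ ξ) {E | Es + κ ≤ |E|} (k * Real.sqrt κ / Real.log (2 / (κ * σ))) := by
  obtain ⟨k, K0, hk, hk1, hK0, HF⟩ := Pool.Agent.W788.Fin3.fin η hη hη'
  obtain ⟨C2, hC2, HTo⟩ := Pool.Agent.W788.AN.tor 3 le_rfl
  obtain ⟨M, hM⟩ : ∃ M : ℝ, M = (1 + K0) ^ (((3 : ℕ) : ℝ) / 2) := ⟨_, rfl⟩
  have hM0 : 0 < M := by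
    rw [hM]
    exact Real.rpow_pos_of_pos (by linarith) _
  have hC2M : 0 < C2 * M := by positivity
  obtain ⟨K, hK⟩ : ∃ K : ℝ, K = K0 + C2 * M := ⟨_, rfl⟩
  have hKK0 : K0 ≤ K := by linarith
  have hcast : (((3 : ℕ) : ℝ) / 2) = (3 : ℝ) / 2 := by norm_num
  refine ⟨k, K, hk, by linarith, ?_⟩
  intro σ hσ hσk
  have hσ1 : σ ≤ 1 := by linarith
  obtain ⟨Es, hEs, H0, H1, H2⟩ := HF σ hσ hσk
  obtain ⟨l, hl⟩ : ∃ l : ℝ, l = (σ ^ 2 * Real.log (1 / σ)) ^ 2 := ⟨_, rfl⟩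
  have hl0 : 0 ≤ l := by rw [hl]; positivity
  rw [← hl] at H0 H2 ⊢
  have hKl : K0 * l ≤ K * l := mul_le_mul_of_nonneg_right hKK0 hl0
  have e6 : (2 : ℝ) * ((3 : ℕ) : ℝ) = 6 := by norm_num
  refine ⟨6 - Es, by rw [sub_sub_cancel_left, abs_neg]; exact hEs, ?_, ?_, ?_⟩
  · -- the lattice
    intro κ hκ hκ1
    obtain ⟨G, hG, hP, hG2⟩ := H0 κ (hKl.trans hκ) hκ1
    have hm : Measurable (fun (ξ : (Fin 3 → ℤ) → ℝ) y => -ξ y) := by fun_prop
    refine ⟨G ∩ (fun ξ y => -ξ y) ⁻¹' G, hG.inter (hm hG), ?_, ?_⟩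
    · have hP2 : 1 - Real.exp (-(k * Real.sqrt κ / σ ^ 2)) / 2 ≤
          (Measure.infinitePi fun _ : Fin 3 → ℤ => gaussianReal 0 1).real
            ((fun ξ y => -ξ y) ⁻¹' G) := by
        have h1 : (Measure.infinitePi fun _ : Fin 3 → ℤ => gaussianReal 0 1).real
            ((fun ξ y => -ξ y) ⁻¹' G) =
            (Measure.infinitePi fun _ : Fin 3 → ℤ => gaussianReal 0 1).real G := by
          conv_rhs => rw [← law_neg 3]
          rw [map_measureReal_apply hm hG]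
        rw [h1]
        exact hP
      have h2 := measureReal_union_add_inter (μ := Measure.infinitePi fun _ : Fin 3 → ℤ =>
        gaussianReal 0 1) (s := G) (t := (fun ξ y => -ξ y) ⁻¹' G) (hm hG)
      have h3 : (Measure.infinitePi fun _ : Fin 3 → ℤ => gaussianReal 0 1).real
          (G ∪ (fun ξ y => -ξ y) ⁻¹' G) ≤ 1 := measureReal_le_one
      linarith
    · intro ξ hξ κ' hκκ' hκ'1 E hE u hu hgen x hx
      have hκ'0 : 0 ≤ κ' := by
        have : 0 ≤ K * l := mul_nonneg (by linarith) hl0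
        linarith
      have hsum0 : 0 ≤ ∑' y, ‖u y‖ ^ 2 := tsum_nonneg fun y => by positivity
      have hKK : K0 * κ' ^ (((3 : ℕ) : ℝ) / 2) * ∑' y, ‖u y‖ ^ 2 ≤
          K * κ' ^ ((3 : ℝ) / 2) * ∑' y, ‖u y‖ ^ 2 := by
        rw [hcast]
        apply mul_le_mul_of_nonneg_right _ hsum0
        exact mul_le_mul_of_nonneg_right hKK0 (Real.rpow_nonneg hκ'0 _)
      have hg : Pool.Agent.H4R2.LO.IsGen 1 (fun x => σ * ξ x) E u := by
        intro y
        rw [← H_eq]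
        exact hgen y
      refine le_trans ?_ hKK
      rcases le_or_gt 0 E with h0 | h0
      · rw [abs_of_nonneg h0] at hE
        have hg2 := Pool.Agent.H4R2.LO.Main.neg_gen 1 (fun x => σ * ξ x) E u hg
        have e1 : (fun x => -(σ * ξ x)) = fun x => σ * (-ξ x) := by
          funext y; ring
        rw [e1] at hg2
        exact hG2 _ hξ.2 κ' hκκ' hκ'1 (-E) (by rw [e6]; linarith) u hg2 hu x hx
      · rw [abs_of_neg h0] at hE
        have hg2 := Pool.Agent.H4R2.LO.Main.stag 1 (fun x => σ * ξ x) E u hg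
        have hn : ∀ y, ‖Pool.Agent.H4R2.LO.Main.sgn y * u y‖ = ‖u y‖ := fun y => by
          rw [norm_mul, Pool.Agent.H4R2.LO.Main.sgn_norm, one_mul]
        have h9 := hG2 _ hξ.1 κ' hκκ' hκ'1 E (by rw [e6]; linarith) _ hg2 (by
          unfold Pool.Agent.H4R2.LO.L2f
          simp only [hn]
          exact hu) x hx
        simp only [hn] at h9
        exact h9
  · intro L _ hL
    obtain ⟨G, hG, hP, hflat⟩ := H1 L hL
    have hm : Measurable (fun (ξ : T 3 L → ℝ) y => -ξ y) := by fun_prop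
    refine ⟨(fun ξ y => -ξ y) ⁻¹' G, hm hG, ?_, fun ξ hξ => ?_⟩
    · have h1 : (Measure.pi fun _ : T 3 L => gaussianReal 0 1).real ((fun ξ y => -ξ y) ⁻¹' G) =
          (Measure.pi fun _ : T 3 L => gaussianReal 0 1).real G := by
        conv_rhs => rw [← lawT_neg 3 L]
        rw [map_measureReal_apply hm hG]
      rw [h1]
      exact hP
    · obtain ⟨E0, ψ, h1, h2, h3⟩ := hflat _ hξ
      have h4 : ∀ x, HT σ ξ ψ x = (6 - E0) * ψ x := fun x => by
        rw [HT_eq, h3 x, e6]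
        ring
      refine ⟨⟨6 - E0, ψ, ?_, h2, h4, likeFree η σ (6 - E0) hη ξ ψ h2 h4⟩, ?_⟩
      · have e1 : 6 - E0 - (6 - Es) = -(E0 - Es) := by ring
        rw [e1, abs_neg]
        exact h1.trans (div_le_div_of_nonneg_right hKK0 (by positivity))
      · intro κ hκ E hE u hu x
        have hL0 : (0 : ℝ) < L := by exact_mod_cast Nat.pos_of_ne_zero (NeZero.ne L)
        have hκ0 : 0 < κ := lt_of_lt_of_le (by positivity) hκ
        have h4 := HTo L σ K0 Es E0 (fun y => -ξ y) ψ (by linarith) h1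
          (fun x => ⟨(h2 x).1, by linarith [(h2 x).2]⟩) h3 κ (6 - E) hκ (by linarith) u
          (fun y => by
            have := hu y
            rw [HT_eq, e6] at this
            linarith) x
        rw [← hM, hcast] at h4
        refine h4.trans ?_
        apply mul_le_mul_of_nonneg_right _ (Finset.sum_nonneg fun y _ => sq_nonneg _)
        apply mul_le_mul_of_nonneg_right _ (Real.rpow_nonneg hκ0.le _)
        linarith
  · intro κ hκ hκ1
    have hκ' := hKl.trans hκ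
    have h1 := H2 κ hκ' hκ1
    have hlpos : 0 < l := by
      have h7 : 0 < Real.log (1 / σ) := Real.log_pos (by
        rw [lt_div_iff₀ hσ]
        linarith)
      rw [hl]
      positivity
    have hκpos : 0 < κ := lt_of_lt_of_le (mul_pos (by linarith) hlpos) hκ
    obtain ⟨m, hm⟩ : ∃ m : ℝ, m = k * Real.sqrt κ / Real.log (2 / (κ * σ)) := ⟨_, rfl⟩
    rw [← hm] at h1 ⊢
    have hbase : 2 ≤ 2 / (κ * σ) := by
      rw [le_div_iff₀ (by positivity)]
      have : κ * σ ≤ 1 := mul_le_one₀ hκ1 hσ.le hσ1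
      linarith
    have hX : 0 < Real.log (2 / (κ * σ)) := Real.log_pos (by linarith)
    have hmpos : 0 < m := by
      rw [hm]
      positivity
    have hA : ∀ᵐ ξ ∂(Measure.infinitePi fun _ : Fin 3 → ℤ => gaussianReal 0 1),
        Pool.Agent.H4R2.LO.Main.Dec 3 (-1) (fun x => σ * ξ x) (Set.Iic (Es - 6 - κ)) m := by
      rw [e6] at h1
      exact h1
    have hB : ∀ᵐ ξ ∂(Measure.infinitePi fun _ : Fin 3 → ℤ => gaussianReal 0 1),
        Pool.Agent.H4R2.LO.Main.Dec 3 (-1) (fun x => σ * -ξ x) (Set.Iic (Es - 6 - κ)) m := by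
      have h3 := hA
      rw [← law_neg 3] at h3
      have hm2 : Measurable (fun (ω : (Fin 3 → ℤ) → ℝ) x => -ω x) := by fun_prop
      exact ae_of_ae_map hm2.aemeasurable h3
    filter_upwards [hA, hB] with ξ hξ hξ'
    apply localized_of σ ξ _ m hmpos
    -- negative energies
    have e1 := Pool.Agent.H4R2.LO.Main.dec_stag _ _ _ m hξ
    -- positive energies
    have e2 := Pool.Agent.H4R2.LO.Main.dec_neg _ _ _ m hξ'
    simp only [neg_neg, mul_neg] at e1 e2
    refine Pool.Agent.H4R2.LO.Main.dec_mono _ _ _ _ _ _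
      (Pool.Agent.H4R2.LO.Main.dec_union _ _ _ _ m e1 e2) ?_ le_rfl
    intro E hE
    have hE' : 6 - Es + κ ≤ |E| := hE
    rcases abs_cases E with ⟨h, _⟩ | ⟨h, _⟩
    · right
      show -E ≤ Es - 6 - κ
      linarith
    · left
      show E ≤ Es - 6 - κ
      linarith

end Pool.Agent.Results.MP_1906c1_mp.ThreeDimEdge
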